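import Pool.Agent.W200.MR.Stm

open Finset

namespace Pool.Agent.W597.MRS

open Pool.Agent.W200.MR

theorem t_SUP : S_SUP := by
  intro c η N0 hc hη hη1 hN0 hsum
  by_contra hcon
  push Not at hcon
  have hN0r : (1 : ℝ) ≤ N0 := by exact_mod_cast hN0
  have hA0 : ‖∑ n ∈ Icc 1 N0, c n‖ ≤ N0 := by
    calc ‖∑ n ∈ Icc 1 N0, c n‖ ≤ ∑ n ∈ Icc 1 N0, ‖c n‖ := norm_sum_le _ _
      _ ≤ ∑ _n ∈ Icc 1 N0, (1 : ℝ) := Finset.sum_le_sum fun n _ => hc n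
      _ = N0 := by simp
  have hη2 : η ≤ 1 / 2 := by nlinarith
  set K : ℕ := ⌊η * N0 / 2⌋₊ with hK
  have hKle : (K : ℝ) ≤ η * N0 / 2 := Nat.floor_le (by positivity)
  have hKlt : η * N0 / 2 < (K : ℝ) + 1 := Nat.lt_floor_add_one _
  have hKN : K ≤ N0 := by
    have : (K : ℝ) ≤ N0 := by nlinarith
    exact_mod_cast this
  have hsub : Icc N0 (N0 + K) ⊆ Icc N0 (2 * N0) := by
    apply Finset.Icc_subset_Icc_right
    omega
  have hterm : ∀ N ∈ Icc N0 (N0 + K), η ^ 2 / (2 * N0) * 2 ≤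
      ‖∑ n ∈ Icc 1 N, c n‖ ^ 2 / (N : ℝ) ^ 3 := by
    intro N hN
    rw [Finset.mem_Icc] at hN
    have hNr0 : (N0 : ℝ) ≤ N := by exact_mod_cast hN.1
    have hNr1 : (N : ℝ) ≤ N0 + K := by exact_mod_cast hN.2
    have hNK : (N : ℝ) ≤ 5 / 4 * N0 := by nlinarith
    have hsplit : ∑ n ∈ Icc 1 N, c n = ∑ n ∈ Icc 1 N0, c n + ∑ n ∈ Ioc N0 N, c n := by
      rw [← Finset.sum_union]
      · congr 1
        ext x
        simp only [Finset.mem_Icc, Finset.mem_union, Finset.mem_Ioc]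
        omega
      · rw [Finset.disjoint_left]
        intro x hx hx'
        simp only [Finset.mem_Icc, Finset.mem_Ioc] at hx hx'
        omega
    have hB : ‖∑ n ∈ Ioc N0 N, c n‖ ≤ N - N0 := by
      calc ‖∑ n ∈ Ioc N0 N, c n‖ ≤ ∑ n ∈ Ioc N0 N, ‖c n‖ := norm_sum_le _ _
        _ ≤ ∑ _n ∈ Ioc N0 N, (1 : ℝ) := Finset.sum_le_sum fun n _ => hc n
        _ = N - N0 := by
          simp only [Finset.sum_const, Nat.card_Ioc, nsmul_eq_mul, mul_one]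
          rw [Nat.cast_sub hN.1]
    have hA : 3 / 2 * η * N0 ≤ ‖∑ n ∈ Icc 1 N, c n‖ := by
      rw [hsplit]
      have := norm_sub_le_norm_add (∑ n ∈ Icc 1 N0, c n) (∑ n ∈ Ioc N0 N, c n)
      nlinarith
    have hNpos : (0 : ℝ) < N := by linarith
    have hsq : (3 / 2 * η * N0) ^ 2 ≤ ‖∑ n ∈ Icc 1 N, c n‖ ^ 2 :=
      pow_le_pow_left₀ (by positivity) hA 2
    have hcube : (N : ℝ) ^ 3 ≤ (5 / 4 * N0) ^ 3 := pow_le_pow_left₀ hNpos.le hNK 3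
    rw [le_div_iff₀ (by positivity)]
    have h1 : η ^ 2 / (2 * N0) * 2 * (N : ℝ) ^ 3 ≤ η ^ 2 / (2 * N0) * 2 * (5 / 4 * N0) ^ 3 :=
      mul_le_mul_of_nonneg_left hcube (by positivity)
    have h2 : η ^ 2 / (2 * N0) * 2 * (5 / 4 * N0) ^ 3 = 125 / 64 * (η * N0) ^ 2 := by
      field_simp
      ring
    have h3 : (3 / 2 * η * N0) ^ 2 = 9 / 4 * (η * N0) ^ 2 := by ring
    have h4 : 0 ≤ (η * N0) ^ 2 := by positivity
    linarith
  have hlow : ((K : ℝ) + 1) * (η ^ 2 / (2 * N0) * 2) ≤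
      ∑ N ∈ Icc N0 (2 * N0), ‖∑ n ∈ Icc 1 N, c n‖ ^ 2 / (N : ℝ) ^ 3 := by
    calc ((K : ℝ) + 1) * (η ^ 2 / (2 * N0) * 2) =
        ∑ _N ∈ Icc N0 (N0 + K), (η ^ 2 / (2 * N0) * 2) := by
          rw [Finset.sum_const, Nat.card_Icc, nsmul_eq_mul]
          congr 1
          have : N0 + K + 1 - N0 = K + 1 := by omega
          rw [this]
          push_cast
          ring
      _ ≤ ∑ N ∈ Icc N0 (N0 + K), ‖∑ n ∈ Icc 1 N, c n‖ ^ 2 / (N : ℝ) ^ 3 :=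
          Finset.sum_le_sum hterm
      _ ≤ _ := Finset.sum_le_sum_of_subset_of_nonneg hsub fun _ _ _ => by positivity
  have h5 : η * N0 / 2 * (η ^ 2 / (2 * N0) * 2) ≤ ((K : ℝ) + 1) * (η ^ 2 / (2 * N0) * 2) :=
    mul_le_mul_of_nonneg_right hKlt.le (by positivity)
  have h6 : η * N0 / 2 * (η ^ 2 / (2 * N0) * 2) = η ^ 3 / 2 := by
    field_simp
  have h7 : 0 < η ^ 3 := by positivity
  linarith

end Pool.Agent.W597.MRS
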